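import Pool.Agent.H64.STM.Targets

/-!
# Row STN: positivity for the standard forms
-/

set_option autoImplicit false

open Matrix Pool.Agent.H64.CC Pool.Agent.H2.NL Pool.Agent.H2.KM Pool.Agent.H64.EV
  Pool.Agent.H64.FTM Pool.Agent.H64.STM

namespace Pool.Agent.H81.STM

/-- the invariant tensor of order two -/
theorem om_inv {I : Type} [Fintype I] [DecidableEq I] (F : OForm ℚ I)
    (hc : ∀ a, F.c a * F.c a = 1) (a b : I) :
    F.c a * F.c b * F.ω (F.st a) (F.st b) = F.ω a b := by
  unfold OForm.ω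
  simp only [Matrix.of_apply]
  by_cases h : b = F.st a
  · subst h
    rw [if_pos rfl, if_pos rfl, F.st_st]
    have h1 := hc (F.st a)
    have h2 := F.c_ne a
    have h3 := F.c_ne (F.st a)
    field_simp
    rw [pow_two]
    exact h1
  · have h' : ¬ F.st b = F.st (F.st a) := by
      intro h2
      apply h
      rw [F.st_st] at h2
      rw [← h2, F.st_st]
    rw [if_neg h, if_neg h', mul_zero]

theorem omk_inv {I : Type} [Fintype I] [DecidableEq I] (F : OForm ℚ I)
    (hc : ∀ a, F.c a * F.c a = 1) (k : ℕ) : ∀ l : List I, l.length = 2 * k →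
    (l.map F.c).prod * omk F.ω k (l.map F.st) = omk F.ω k l := by
  induction k with
  | zero =>
    intro l hl
    have : l = [] := List.length_eq_zero_iff.1 (by omega)
    subst this
    simp [omk]
  | succ k ih =>
    intro l hl
    match l, hl with
    | a :: b :: l', hl =>
      have hl' : l'.length = 2 * k := by
        simp only [List.length_cons] at hl
        omega
      have h1 : omk F.ω (k + 1) (a :: b :: l') = F.ω a b * omk F.ω k l' := rfl
      have h2 : omk F.ω (k + 1) ((a :: b :: l').map F.st) =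
          F.ω (F.st a) (F.st b) * omk F.ω k (l'.map F.st) := rfl
      rw [h1, h2, ← om_inv F hc a b, ← ih l' hl']
      simp only [List.map_cons, List.prod_cons]
      ring
    | [_], hl => simp at hl; omega
    | [], hl => simp at hl

theorem dg_inv {I : Type} [Fintype I] [DecidableEq I] (F : OForm ℚ I)
    (hc : ∀ a, F.c a * F.c a = 1) (k : ℕ) (v : Fin (2 * k) → I) :
    (∏ i, F.c (v i)) * dg F k (fun i => F.st (v i)) = dg F k v := by
  have h := omk_inv F hc k (List.ofFn v) (List.length_ofFn)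
  rw [List.map_ofFn, List.map_ofFn, List.prod_ofFn] at h
  exact h

theorem pr_lc {I : Type} [Fintype I] [DecidableEq I] (F : OForm ℚ I) {m : ℕ}
    (f D : (Fin m → I) → ℚ) (c : List (ℚ × Equiv.Perm (Fin m))) :
    pr F f (lc F.o D c) = (c.map fun x => x.1 * pr F f (ac F.o x.2 D)).sum := by
  induction c with
  | nil => simp [pr, lc]
  | cons x c ih =>
    rw [List.map_cons, List.sum_cons, ← ih]
    unfold pr
    rw [Finset.mul_sum, ← Finset.sum_add_distrib]
    refine Finset.sum_congr rfl fun w _ => ?_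
    have : lc F.o D (x :: c) (fun i => F.st (w i)) =
        x.1 * ac F.o x.2 D (fun i => F.st (w i)) + lc F.o D c (fun i => F.st (w i)) := by
      simp [lc]
    rw [this]
    ring

theorem pf_STN (hKAP : T_KAP) (hACT : T_ACT) : T_STN := by
  intro I _ _ F s ho hc k c h w
  obtain ⟨κ, hκ⟩ : ∃ κ : Equiv.Perm (Fin (2 * k)) → ℚ, ∀ σ (w : Fin (2 * k) → I),
      kap F.o σ w = κ σ := by
    refine ⟨fun σ => ∏ p : Fin (2 * k) × Fin (2 * k),
      if p.1 < p.2 ∧ σ.symm p.2 < σ.symm p.1 then ks ℚ s s else 1, fun σ w => ?_⟩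
    unfold kap
    simp only [ho]
  have hac : ∀ σ (f : (Fin (2 * k) → I) → ℚ) w, ac F.o σ f w = κ σ * f fun i => w (σ i) := by
    intro σ f w
    unfold ac
    rw [hκ]
  have hκ2 : ∀ σ, κ σ * κ σ = 1 := by
    intro σ
    have h1 := (hKAP ℚ I F.o (2 * k)).2.2.1 σ w
    rwa [hκ] at h1
  have hκ0 : ∀ σ, κ σ ≠ 0 := fun σ h0 => by
    have := hκ2 σ
    rw [h0, mul_zero] at this
    exact zero_ne_one this
  obtain ⟨X, hX⟩ : ∃ X, X = lc F.o (dg F k) c := ⟨_, rfl⟩
  rw [← hX] at h ⊢
  -- step A
  have hA : ∀ τ : Equiv.Perm (Fin (2 * k)), pr F X (ac F.o τ (dg F k)) = 0 := by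
    intro τ'
    obtain ⟨r, hr⟩ : ∃ r : Equiv.Perm (Fin (2 * k)), r = Fin.revPerm := ⟨_, rfl⟩
    have hrr : r * (r * τ') = τ' := by
      ext i
      simp [hr]
    have h1 : ∀ f : (Fin (2 * k) → I) → ℚ, rvf f = fun w => κ r * ac F.o r f w := by
      intro f
      funext w
      rw [hac, ← mul_assoc, hκ2, one_mul, hr]
      rfl
    have h2 := h (r * τ')
    rw [h1, ← (hACT ℚ I F.o (2 * k)).1, hrr] at h2
    have h3 : pr F X (fun w => κ r * ac F.o τ' (dg F k) w) =
        κ r * pr F X (ac F.o τ' (dg F k)) := by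
      unfold pr
      rw [Finset.mul_sum]
      refine Finset.sum_congr rfl fun w _ => ?_
      ring
    rw [h3] at h2
    exact (mul_eq_zero.1 h2).resolve_left (hκ0 r)
  -- step B
  have hB : pr F X X = 0 := by
    conv_lhs => rw [hX, pr_lc, ← hX]
    refine List.sum_eq_zero fun x hx => ?_
    obtain ⟨y, -, rfl⟩ := List.mem_map.1 hx
    rw [hA, mul_zero]
  -- step C
  have hC : ∀ w : Fin (2 * k) → I, (∏ i, F.c (w i)) * X (fun i => F.st (w i)) = X w := by
    intro w
    have h1 : ∀ c : List (ℚ × Equiv.Perm (Fin (2 * k))),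
        (∏ i, F.c (w i)) * lc F.o (dg F k) c (fun i => F.st (w i)) = lc F.o (dg F k) c w := by
      intro c
      induction c with
      | nil => simp [lc]
      | cons x c ih =>
        have h4 : ∀ w, lc F.o (dg F k) (x :: c) w =
            x.1 * ac F.o x.2 (dg F k) w + lc F.o (dg F k) c w := by
          intro w
          simp [lc]
        rw [h4, h4, mul_add, ih]
        congr 1
        rw [hac, hac]
        have h5 := dg_inv F hc k fun i => w (x.2 i)
        have h6 : ∏ i, F.c (w (x.2 i)) = ∏ i, F.c (w i) :=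
          Equiv.prod_comp x.2 fun i => F.c (w i)
        rw [h6] at h5
        rw [← h5]
        ring
    rw [hX]
    exact h1 c
  -- step D
  have hD : ∑ w : Fin (2 * k) → I, X w * X w = 0 := by
    rw [← hB]
    unfold pr
    refine Finset.sum_congr rfl fun w _ => ?_
    nth_rw 2 [← hC w]
    ring
  have := (Finset.sum_eq_zero_iff_of_nonneg fun w _ => mul_self_nonneg (X w)).1 hD w
    (Finset.mem_univ _)
  exact mul_self_eq_zero.1 this

end Pool.Agent.H81.STM
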